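import Pool.Agent.Helper15.SUB.Base

/-!
Project SUB, row AV: absolute values and the product formula.
-/

set_option autoImplicit false

namespace Pool.Agent.Helper15.SUB

open Pool.Agent.Helper70.SUB Finset

theorem av_fact {p : ℕ} (hp : p.Prime) (z : ℤ) (hz : z ≠ 0) :
    av (some p) (z : ℚ) = 1 / ((p : ℝ) ^ (z.natAbs.factorization p)) := by
  have := Fact.mk hp
  have hz' : (z : ℚ) ≠ 0 := by exact_mod_cast hz
  simp only [av]
  rw [padicNorm.eq_zpow_of_nonzero hz', padicValRat.of_int]
  have h1 : padicValInt p z = z.natAbs.factorization p := by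
    rw [Nat.factorization_def _ hp]; rfl
  rw [h1, zpow_neg, zpow_natCast]
  push_cast
  rw [one_div]

theorem prod_plc (S : Finset ℕ) (f : Option ℕ → ℝ) :
    ∏ v ∈ plc S, f v = f none * ∏ p ∈ S, f (some p) := by
  simp only [plc]
  exact Finset.prod_insertNone f S

theorem prod_fact (S : Finset ℕ) (n : ℕ) (hn : n ≠ 0) :
    (∏ p ∈ S, p ^ n.factorization p) ∣ n ∧
      ((∀ q : ℕ, q.Prime → q ∣ n → q ∈ S) → ∏ p ∈ S, p ^ n.factorization p = n) := by
  classical
  have h1 : ∏ p ∈ S, p ^ n.factorization p = ∏ p ∈ S ∩ n.primeFactors, p ^ n.factorization p := by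
    symm
    apply Finset.prod_subset Finset.inter_subset_left
    intro p hpS hp
    have : p ∉ n.primeFactors := fun h => hp (Finset.mem_inter.2 ⟨hpS, h⟩)
    rw [← Nat.support_factorization, Finsupp.notMem_support_iff] at this
    rw [this, pow_zero]
  have h2 : ∏ p ∈ n.primeFactors, p ^ n.factorization p = n := by
    have := Nat.prod_factorization_pow_eq_self hn
    rwa [Finsupp.prod, Nat.support_factorization] at this
  refine ⟨?_, fun h => ?_⟩
  · rw [h1]
    conv_rhs => rw [← h2]
    exact Finset.prod_dvd_prod_of_subset _ _ _ Finset.inter_subset_right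
  · have h3 : S ∩ n.primeFactors = n.primeFactors := by
      apply Finset.inter_eq_right.2
      intro q hq
      exact h q (Nat.prime_of_mem_primeFactors hq) (Nat.dvd_of_mem_primeFactors hq)
    rw [h1, h3, h2]

theorem prod_av (S : Finset ℕ) (hS : ∀ p ∈ S, p.Prime) (z : ℤ) (hz : z ≠ 0) :
    (∏ v ∈ plc S, av v (z : ℚ)) * ((∏ p ∈ S, p ^ z.natAbs.factorization p : ℕ) : ℝ)
      = (z.natAbs : ℝ) := by
  have h0 : av none (z : ℚ) = (z.natAbs : ℝ) := by
    simp only [av]
    rw [Rat.cast_intCast, Nat.cast_natAbs, Int.cast_abs]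
  have h1 : (∏ p ∈ S, av (some p) (z : ℚ)) * ((∏ p ∈ S, p ^ z.natAbs.factorization p : ℕ) : ℝ)
      = 1 := by
    push_cast
    rw [← Finset.prod_mul_distrib]
    apply Finset.prod_eq_one
    intro p hp
    rw [av_fact (hS p hp) z hz]
    have : (p : ℝ) ≠ 0 := by exact_mod_cast (hS p hp).ne_zero
    field_simp
  rw [prod_plc, mul_assoc, h1, mul_one, h0]

theorem AV : ST_AV := by
  classical
  have hnn : ∀ v x, 0 ≤ av v x := by
    intro v x
    cases v with
    | none => exact abs_nonneg _
    | some p => exact av_nn' p x
  refine ⟨hnn, ?_, ?_⟩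
  · intro v
    cases v with
    | none => simp [av]
    | some p => simp [av]
  intro S hS
  have hS' : ∀ p, some p ∈ plc S → p ∈ S := fun p hp => by
    simpa only [plc, Finset.some_mem_insertNone] using hp
  have hadd : ∀ v ∈ plc S, ∀ x y, av v (x + y) ≤ av v x + av v y := by
    intro v hv x y
    cases v with
    | none =>
      simp only [av]; push_cast; exact abs_add_le _ _
    | some p =>
      have := Fact.mk (hS p (hS' p hv))
      simp only [av]
      exact_mod_cast padicNorm.triangle_ineq _ _
  have hult : ∀ p ∈ S, ∀ x y, av (some p) (x + y) ≤ max (av (some p) x) (av (some p) y) := by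
    intro p hp x y
    have := Fact.mk (hS p hp)
    simp only [av]
    exact_mod_cast (padicNorm.nonarchimedean (p := p) (q := x) (r := y))
  refine ⟨?_, ?_, hadd, hult, fun p hp z => av_int' (hS p hp) z, ?_, ?_, ?_, ?_⟩
  · intro v hv x hx
    cases v with
    | none =>
      simp only [av]
      have : (x : ℝ) ≠ 0 := by exact_mod_cast hx
      exact abs_pos.2 this
    | some p =>
      have := Fact.mk (hS p (hS' p hv))
      have h2 : av (some p) x ≠ 0 := by
        simp only [av]
        have h3 := padicNorm.nonzero (p := p) hx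
        exact_mod_cast h3
      exact lt_of_le_of_ne (hnn _ _) h2.symm
  · intro v hv x y
    cases v with
    | none => simp only [av]; push_cast; exact abs_mul _ _
    | some p => exact av_mul' (hS p (hS' p hv)) x y
  · intro p hp z hz
    have hpp := hS p hp
    rw [av_fact hpp z hz]
    have hp0 : (0 : ℝ) < (p : ℝ) ^ (z.natAbs.factorization p) := by
      have : (0 : ℝ) < p := by exact_mod_cast hpp.pos
      positivity
    rw [div_mul_eq_mul_div, one_mul, le_div_iff₀ hp0, one_mul]
    have h1 : p ^ (z.natAbs.factorization p) ≤ z.natAbs :=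
      Nat.le_of_dvd (Int.natAbs_pos.2 hz) (Nat.ordProj_dvd _ _)
    have h2 : ((p : ℝ) ^ (z.natAbs.factorization p)) ≤ (z.natAbs : ℝ) := by exact_mod_cast h1
    rwa [Nat.cast_natAbs, Int.cast_abs] at h2
  · intro z hz
    have h := prod_av S hS z hz
    have hn : z.natAbs ≠ 0 := Int.natAbs_ne_zero.2 hz
    obtain ⟨hd, -⟩ := prod_fact S z.natAbs hn
    set m := ∏ p ∈ S, p ^ z.natAbs.factorization p with hm
    have hm0 : 0 < m := Nat.pos_of_dvd_of_pos hd (Nat.pos_of_ne_zero hn)
    have hm1 : (0 : ℝ) < m := by exact_mod_cast hm0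
    have hle : (m : ℝ) ≤ z.natAbs := by exact_mod_cast Nat.le_of_dvd (Nat.pos_of_ne_zero hn) hd
    rw [← h] at hle
    by_contra hcon
    push Not at hcon
    nlinarith
  · intro z hz hq
    have h := prod_av S hS z hz
    have hn : z.natAbs ≠ 0 := Int.natAbs_ne_zero.2 hz
    obtain ⟨-, he⟩ := prod_fact S z.natAbs hn
    have he' := he (fun q hqp hqd => hq q hqp (Int.natCast_dvd.2 hqd))
    rw [he'] at h
    have h0 : (z.natAbs : ℝ) ≠ 0 := by exact_mod_cast hn
    exact mul_right_cancel₀ h0 (h.trans (one_mul _).symm)
  · intro v hv ι s f b hb hf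
    cases v with
    | none =>
      simp only [if_true]
      have h1 : ∀ T : Finset ι, T ⊆ s → av none (∑ i ∈ T, f i) ≤ T.card * b := by
        intro T
        induction T using Finset.induction_on with
        | empty => intro _; simp [av]
        | insert a T ha ih =>
          intro hT
          rw [Finset.sum_insert ha, Finset.card_insert_of_notMem ha]
          have h2 := hadd none hv (f a) (∑ i ∈ T, f i)
          have h3 := hf a (hT (Finset.mem_insert_self _ _))
          have h4 := ih (fun x hx => hT (Finset.mem_insert_of_mem hx))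
          push_cast
          linarith
      exact h1 s (Finset.Subset.refl _)
    | some p =>
      have hp := hS' p hv
      simp only [reduceCtorEq, if_false, one_mul]
      have h1 : ∀ T : Finset ι, T ⊆ s → av (some p) (∑ i ∈ T, f i) ≤ b := by
        intro T
        induction T using Finset.induction_on with
        | empty => intro _; simp only [Finset.sum_empty]; simpa [av] using hb
        | insert a T ha ih =>
          intro hT
          rw [Finset.sum_insert ha]
          refine (hult p hp _ _).trans (max_le (hf a (hT (Finset.mem_insert_self _ _))) ?_)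
          exact ih (fun x hx => hT (Finset.mem_insert_of_mem hx))
      exact h1 s (Finset.Subset.refl _)

end Pool.Agent.Helper15.SUB
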