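import Pool.Agent.Helper15.SUB.Base

/-!
Project SUB, row BAS: a reduced basis of the lattice of a box.
-/

set_option autoImplicit false

namespace Pool.Agent.Helper15.SUB

open Pool.Agent.Helper70.SUB Finset Matrix

/-- rational matrices as real ones -/
noncomputable def qR {ι : Type} [Fintype ι] [DecidableEq ι] :
    Matrix ι ι ℚ →+* Matrix ι ι ℝ := (Rat.castHom ℝ).mapMatrix

theorem qR_apply {ι : Type} [Fintype ι] [DecidableEq ι] (M : Matrix ι ι ℚ) (i j : ι) :
    qR M i j = ((M i j : ℚ) : ℝ) := rfl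

theorem qR_mQ {N : ℕ} (W : Matrix (Fin N) (Fin N) ℤ) : qR (mQ W) = mR W := by
  ext i j
  simp [qR_apply]

theorem qR_det {ι : Type} [Fintype ι] [DecidableEq ι] (M : Matrix ι ι ℚ) :
    (qR M).det = ((M.det : ℚ) : ℝ) := by
  exact (RingHom.map_det (Rat.castHom ℝ) M).symm

theorem qR_inv {ι : Type} [Fintype ι] [DecidableEq ι] (M : Matrix ι ι ℚ) (h : M.det ≠ 0) :
    (qR M)⁻¹ = qR M⁻¹ := by
  apply Matrix.inv_eq_right_inv
  rw [← map_mul, Matrix.mul_nonsing_inv _ (isUnit_iff_ne_zero.2 h), map_one]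

theorem mQ_mul {N : ℕ} (A B : Matrix (Fin N) (Fin N) ℤ) : mQ (A * B) = mQ A * mQ B := by
  have := map_mul ((Int.castRingHom ℚ).mapMatrix (m := Fin N)) A B
  exact this

theorem mQ_one {N : ℕ} : mQ (1 : Matrix (Fin N) (Fin N) ℤ) = 1 := by
  have := map_one ((Int.castRingHom ℚ).mapMatrix (m := Fin N))
  exact this

theorem mR_mul {N : ℕ} (A B : Matrix (Fin N) (Fin N) ℤ) : mR (A * B) = mR A * mR B := by
  have := map_mul ((Int.castRingHom ℝ).mapMatrix (m := Fin N)) A B
  exact this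

theorem mQ_det {N : ℕ} (B : Matrix (Fin N) (Fin N) ℤ) : (mQ B).det = ((B.det : ℤ) : ℚ) := by
  rw [Int.cast_det]

theorem BAS (hAV : ST_AV) (hLATP : ST_LATP) (hREDB : ST_REDB) : ST_BAS := by
  classical
  intro N S A K hS hdet hK
  obtain ⟨av_nn, av_zero, hAV3⟩ := hAV
  obtain ⟨av_pos, av_mul, av_add, av_ultra, av_int, av_low, pf1, pf2, av_sum⟩ := hAV3 S hS
  obtain ⟨C1, hC1, hL⟩ := hLATP N S A K hS hdet hK
  obtain ⟨C2, hC2, hR⟩ := hREDB N
  have hmem : ∀ p ∈ S, some p ∈ plc S := fun p hp => by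
    simp only [plc, Finset.some_mem_insertNone]; exact hp
  have hnone : (none : Option ℕ) ∈ plc S := by simp [plc]
  refine ⟨max C1 C2, le_max_of_le_left hC1, ?_⟩
  intro s hs hsK
  obtain ⟨B, hB0, hBS, hBle, hBinv, hBx⟩ := hL s hs hsK
  have hs0 : ∀ i, 0 < s none i := fun i => hs none hnone i
  have hA0 : (A none).det ≠ 0 := hdet none hnone
  -- the real matrix
  set D : Matrix (Fin N) (Fin N) ℝ := Matrix.diagonal fun i => s none i with hD
  set D' : Matrix (Fin N) (Fin N) ℝ := Matrix.diagonal fun i => (s none i)⁻¹ with hD'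
  have hDD : D' * D = 1 := by
    rw [hD, hD', Matrix.diagonal_mul_diagonal, ← Matrix.diagonal_one]
    congr 1
    funext i
    exact inv_mul_cancel₀ (hs0 i).ne'
  set G : Matrix (Fin N) (Fin N) ℝ := D' * qR (A none * mQ B) with hG
  have hABdet : (A none * mQ B).det ≠ 0 := by
    rw [Matrix.det_mul, mQ_det]
    exact mul_ne_zero hA0 (by exact_mod_cast hB0)
  have hGdet : G.det ≠ 0 := by
    rw [hG, Matrix.det_mul, qR_det, hD', Matrix.det_diagonal]
    apply mul_ne_zero
    · exact Finset.prod_ne_zero_iff.2 fun i _ => inv_ne_zero (hs0 i).ne'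
    · exact_mod_cast hABdet
  obtain ⟨W, lam, hW, hlam, hmono, hle, hinv⟩ := hR G hGdet
  -- the inverse of `W`
  have hWW : W * W⁻¹ = 1 := Matrix.mul_nonsing_inv _ hW
  have hWW' : W⁻¹ * W = 1 := Matrix.nonsing_inv_mul _ hW
  have hWinvQ : (mQ W)⁻¹ = mQ W⁻¹ := by
    apply Matrix.inv_eq_right_inv
    rw [← mQ_mul, hWW, mQ_one]
  have hBW0 : (B * W).det ≠ 0 := by
    rw [Matrix.det_mul]
    exact mul_ne_zero hB0 hW.ne_zero
  have hABW : ∀ v, A v * mQ (B * W) = (A v * mQ B) * mQ W := fun v => by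
    rw [mQ_mul, Matrix.mul_assoc]
  have hGW : G * mR W = D' * qR (A none * mQ (B * W)) := by
    rw [hG, hABW, Matrix.mul_assoc, map_mul qR (A none * mQ B) (mQ W), qR_mQ]
  have hABWdet : (A none * mQ (B * W)).det ≠ 0 := by
    rw [Matrix.det_mul, mQ_det]
    exact mul_ne_zero hA0 (by exact_mod_cast hBW0)
  have hGWinv : (G * mR W)⁻¹ = qR (A none * mQ (B * W))⁻¹ * D := by
    apply Matrix.inv_eq_left_inv
    rw [hGW, Matrix.mul_assoc, ← Matrix.mul_assoc D D']
    have hDD2 : D * D' = 1 := by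
      rw [hD, hD', Matrix.diagonal_mul_diagonal, ← Matrix.diagonal_one]
      congr 1
      funext i
      exact mul_inv_cancel₀ (hs0 i).ne'
    rw [hDD2, Matrix.one_mul, ← map_mul qR,
      Matrix.nonsing_inv_mul _ (isUnit_iff_ne_zero.2 hABWdet), map_one]
  refine ⟨B * W, lam, ?_⟩
  refine ⟨hBW0, ?_, hlam, hmono, ?_, ?_, ?_, ?_, ?_⟩
  · intro q hq hd
    rw [Matrix.det_mul] at hd
    have hqq : Prime (q : ℤ) := Nat.prime_iff_prime_int.1 hq
    rcases hqq.dvd_or_dvd hd with h | h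
    · exact hBS q hq h
    · exact absurd (isUnit_of_dvd_unit h hW) hqq.not_isUnit
  · intro p hp i k
    rw [hABW, Matrix.mul_apply]
    have h1 := av_sum (some p) (hmem p hp) (Fin N) Finset.univ
      (fun l => (A (some p) * mQ B) i l * mQ W l k) (s (some p) i) (hs _ (hmem p hp) i).le (by
        intro l _
        rw [av_mul _ (hmem p hp)]
        calc av (some p) ((A (some p) * mQ B) i l) * av (some p) (mQ W l k)
            ≤ s (some p) i * 1 := mul_le_mul (hBle p hp i l) (av_int p hp (W l k)) (av_nn _ _)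
              (hs _ (hmem p hp) i).le
          _ = _ := mul_one _)
    simpa using h1
  · intro p hp k i
    rw [hABW, Matrix.mul_inv_rev, hWinvQ, Matrix.mul_apply]
    have hsp := hs _ (hmem p hp) i
    have h1 := av_sum (some p) (hmem p hp) (Fin N) Finset.univ
      (fun l => mQ W⁻¹ k l * (A (some p) * mQ B)⁻¹ l i) (C1 / s (some p) i)
      (by positivity) (by
        intro l _
        rw [av_mul _ (hmem p hp)]
        have h2 : av (some p) ((A (some p) * mQ B)⁻¹ l i) ≤ C1 / s (some p) i := by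
          rw [le_div_iff₀ hsp]; exact hBinv p hp l i
        calc av (some p) (mQ W⁻¹ k l) * av (some p) ((A (some p) * mQ B)⁻¹ l i)
            ≤ 1 * (C1 / s (some p) i) := mul_le_mul (av_int p hp (W⁻¹ k l)) h2 (av_nn _ _)
              zero_le_one
          _ = _ := one_mul _)
    have h3 : av (some p) (∑ l, mQ W⁻¹ k l * (A (some p) * mQ B)⁻¹ l i) ≤ C1 / s (some p) i := by
      simpa using h1
    calc _ ≤ C1 / s (some p) i * s (some p) i := mul_le_mul_of_nonneg_right h3 hsp.le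
      _ = C1 := by field_simp
      _ ≤ _ := le_max_left _ _
  · intro i k
    have h1 := hle i k
    rw [hGW, hD', Matrix.diagonal_mul, qR_apply, abs_mul, abs_of_pos (inv_pos.2 (hs0 i))] at h1
    simp only [av]
    have h2 : |(((A none * mQ (B * W)) i k : ℚ) : ℝ)| ≤ s none i * (C2 * lam k) := by
      rw [inv_mul_le_iff₀ (hs0 i)] at h1
      exact h1
    calc _ ≤ s none i * (C2 * lam k) := h2
      _ = C2 * s none i * lam k := by ring
      _ ≤ _ := by
        apply mul_le_mul_of_nonneg_right _ (hlam k).le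
        exact mul_le_mul_of_nonneg_right (le_max_right _ _) (hs0 i).le
  · intro k i
    have h1 := hinv k i
    rw [hGWinv, hD, Matrix.mul_diagonal, qR_apply, abs_mul, abs_of_pos (hs0 i)] at h1
    simp only [av]
    rw [le_div_iff₀ (hlam k)] at h1
    calc _ = |(((A none * mQ (B * W))⁻¹ k i : ℚ) : ℝ)| * s none i * lam k := by ring
      _ ≤ C2 := h1
      _ ≤ _ := le_max_right _ _
  · intro x hx
    obtain ⟨z, hz⟩ := hBx x hx
    refine ⟨W⁻¹.mulVec z, ?_⟩
    rw [Matrix.mulVec_mulVec, Matrix.mul_assoc, hWW, Matrix.mul_one]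
    exact hz

end Pool.Agent.Helper15.SUB
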