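import Pool.Agent.Helper70.SUB.SheetG

/-!
Project SUB, lemmas on absolute values and on lattices.
-/

set_option autoImplicit false

namespace Pool.Agent.Helper15.SUB

open Pool.Agent.Helper70.SUB Finset Matrix

/-- a subgroup of `ℤ ^ N` which contains `m ℤ ^ N` has a basis matrix -/
theorem exists_basis (N : ℕ) (L : Submodule ℤ (Fin N → ℤ)) (m : ℤ) (hm : m ≠ 0)
    (hL : ∀ x : Fin N → ℤ, m • x ∈ L) :
    ∃ B : Matrix (Fin N) (Fin N) ℤ, B.det ≠ 0 ∧ B.det ∣ m ^ N ∧
      (∀ k, (fun i => B i k) ∈ L) ∧ ∀ x ∈ L, ∃ z : Fin N → ℤ, x = B.mulVec z := by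
  obtain ⟨n, ⟨b⟩⟩ := Submodule.nonempty_basis_of_pid (Pi.basisFun ℤ (Fin N)) L
  have hn : n = N := by
    have h1 : Module.finrank ℤ L = n := by
      rw [Module.finrank_eq_card_basis b, Fintype.card_fin]
    have h2 : Module.finrank ℤ (Fin N → ℤ) = N := by
      rw [Module.finrank_fin_fun]
    have : Module.Finite ℤ L := Module.Finite.of_basis b
    have h3 : Module.finrank ℤ L ≤ Module.finrank ℤ (Fin N → ℤ) :=
      Submodule.finrank_le L
    let f : (Fin N → ℤ) →ₗ[ℤ] L :=
      { toFun := fun x => ⟨m • x, hL x⟩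
        map_add' := fun x y => by ext i; simp [mul_add]
        map_smul' := fun c x => by ext i; simp; ring }
    have hf : Function.Injective f := by
      intro x y hxy
      have : m • x = m • y := congrArg Subtype.val hxy
      funext i
      have hi := congrFun this i
      simp only [Pi.smul_apply, smul_eq_mul] at hi
      exact mul_left_cancel₀ hm hi
    have h4 : Module.finrank ℤ (Fin N → ℤ) ≤ Module.finrank ℤ L :=
      LinearMap.finrank_le_finrank_of_injective hf
    omega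
  subst hn
  let B : Matrix (Fin n) (Fin n) ℤ := fun i k => (b k : Fin n → ℤ) i
  have hB : ∀ x ∈ L, ∃ z : Fin n → ℤ, x = B.mulVec z := by
    intro x hx
    refine ⟨fun k => b.repr ⟨x, hx⟩ k, ?_⟩
    have h := b.sum_repr ⟨x, hx⟩
    have h' : ((∑ k, b.repr ⟨x, hx⟩ k • b k : L) : Fin n → ℤ) = x := congrArg Subtype.val h
    rw [AddSubmonoidClass.coe_finsetSum] at h'
    funext i
    have hi := congrFun h' i
    rw [Finset.sum_apply] at hi
    rw [← hi]
    simp only [Matrix.mulVec, dotProduct, B]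
    refine Finset.sum_congr rfl fun k _ => ?_
    simp [mul_comm]
  choose! z hz using fun j : Fin n => hB (m • Pi.single j 1) (hL _)
  have hmat : B * (Matrix.of fun i j => z j i) = m • (1 : Matrix (Fin n) (Fin n) ℤ) := by
    ext i j
    have := congrFun (hz j) i
    simp only [Matrix.mul_apply, Matrix.of_apply, Matrix.smul_apply, smul_eq_mul]
    simp only [Matrix.mulVec, dotProduct, Pi.smul_apply, smul_eq_mul] at this
    rw [← this]
    by_cases hij : i = j
    · subst hij; simp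
    · simp [hij]
  have hdet : B.det * (Matrix.of fun i j => z j i).det = m ^ n := by
    rw [← Matrix.det_mul, hmat, Matrix.det_smul]
    simp
  refine ⟨B, ?_, ⟨_, hdet.symm⟩, fun k => (b k).2, hB⟩
  intro h0
  rw [h0, zero_mul] at hdet
  exact pow_ne_zero n hm hdet.symm

theorem av_p {p : ℕ} (hp : p.Prime) : av (some p) (p : ℚ) = 1 / (p : ℝ) := by
  have := Fact.mk hp
  simp only [av]
  rw [padicNorm.padicNorm_p_of_prime]
  push_cast
  rw [one_div]

theorem av_mul' {p : ℕ} (hp : p.Prime) (x y : ℚ) :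
    av (some p) (x * y) = av (some p) x * av (some p) y := by
  have := Fact.mk hp
  simp only [av]
  rw [padicNorm.mul]
  push_cast; rfl

theorem av_one' {p : ℕ} (hp : p.Prime) : av (some p) (1 : ℚ) = 1 := by
  have := Fact.mk hp
  simp [av]

theorem av_nn' (p : ℕ) (x : ℚ) : 0 ≤ av (some p) x := by
  simp only [av]
  exact_mod_cast padicNorm.nonneg x

theorem av_pow' {p : ℕ} (hp : p.Prime) (x : ℚ) (e : ℕ) :
    av (some p) (x ^ e) = av (some p) x ^ e := by
  induction e with
  | zero => simp [av_one' hp]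
  | succ e ih => rw [pow_succ, pow_succ, av_mul' hp, ih]

theorem av_int' {p : ℕ} (hp : p.Prime) (z : ℤ) : av (some p) (z : ℚ) ≤ 1 := by
  have := Fact.mk hp
  simp only [av]
  exact_mod_cast padicNorm.of_int z

theorem av_dvd {p : ℕ} (hp : p.Prime) (e : ℕ) (n : ℤ) (h : (p : ℤ) ^ e ∣ n) :
    av (some p) (n : ℚ) ≤ (1 / (2 : ℝ)) ^ e := by
  obtain ⟨c, rfl⟩ := h
  push_cast
  rw [av_mul' hp, av_pow' hp, av_p hp]
  have h2 : (2 : ℝ) ≤ p := by exact_mod_cast hp.two_le
  have h3 : (1 / (p : ℝ)) ^ e ≤ (1 / (2 : ℝ)) ^ e := by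
    apply pow_le_pow_left₀ (by positivity)
    apply one_div_le_one_div_of_le (by norm_num) h2
  calc (1 / (p : ℝ)) ^ e * av (some p) (c : ℚ) ≤ (1 / (p : ℝ)) ^ e * 1 := by
        apply mul_le_mul_of_nonneg_left (av_int' hp c) (by positivity)
    _ ≤ _ := by rw [mul_one]; exact h3

theorem av_unit {p : ℕ} (hp : p.Prime) (n : ℤ) (h : ¬ (p : ℤ) ∣ n) :
    av (some p) (n : ℚ) = 1 := by
  have := Fact.mk hp
  simp only [av]
  exact_mod_cast (padicNorm.int_eq_one_iff n).2 h

theorem not_dvd_den {p : ℕ} (hp : p.Prime) (y : ℚ) (h : av (some p) y ≤ 1) : ¬ p ∣ y.den := by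
  intro hd
  have hcop := y.reduced
  have hnum : ¬ (p : ℤ) ∣ y.num := by
    intro hn
    have h1 : p ∣ y.num.natAbs := by
      rwa [← Int.natCast_dvd]
    have h2 := Nat.dvd_gcd h1 hd
    rw [hcop] at h2
    exact hp.one_lt.ne' (Nat.dvd_one.1 h2)
  have hden : av (some p) ((y.den : ℤ) : ℚ) ≤ (1 / (2 : ℝ)) ^ 1 := by
    apply av_dvd hp
    rw [pow_one]
    exact_mod_cast hd
  have hnum' := av_unit hp y.num hnum
  have hy : y * (y.den : ℚ) = y.num := Rat.mul_den_eq_num y
  have : av (some p) y * av (some p) ((y.den : ℤ) : ℚ) = 1 := by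
    rw [← av_mul' hp, ← hnum']
    congr 1
  have hnn := av_nn' p y
  have hnn2 := av_nn' p ((y.den : ℤ) : ℚ)
  nlinarith

/-- uniform power -/
theorem exists_pow_le (ι : Type) (s : Finset ι) (f : ι → ℝ) (hf : ∀ i ∈ s, 0 ≤ f i) :
    ∃ e : ℕ, ∀ i ∈ s, (1 / (2 : ℝ)) ^ e * f i ≤ 1 := by
  obtain ⟨e, he⟩ := pow_unbounded_of_one_lt (∑ i ∈ s, f i) (one_lt_two (α := ℝ))
  refine ⟨e, fun i hi => ?_⟩
  have h1 : f i ≤ ∑ i ∈ s, f i := Finset.single_le_sum hf hi
  have h2 : f i ≤ 2 ^ e := h1.trans he.le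
  have h3 : (1 / (2 : ℝ)) ^ e * 2 ^ e = 1 := by
    rw [← mul_pow]; norm_num
  calc (1 / (2 : ℝ)) ^ e * f i ≤ (1 / (2 : ℝ)) ^ e * 2 ^ e := by
        apply mul_le_mul_of_nonneg_left h2 (by positivity)
    _ = 1 := h3

/-- the main construction at one prime: an integral vector close to a column of `P` -/
theorem exists_vec {N : ℕ} (S : Finset ℕ) (hS : ∀ p ∈ S, p.Prime)
    (A : ℕ → Matrix (Fin N) (Fin N) ℚ) (s : ℕ → Fin N → ℝ) (hs : ∀ p ∈ S, ∀ i, 0 < s p i)
    (p : ℕ) (hp : p ∈ S) (y : Fin N → ℚ) (hy : ∀ j, av (some p) (y j) ≤ 1) :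
    ∃ (n : ℤ) (x : Fin N → ℤ), ¬ (p : ℤ) ∣ n ∧ (∀ j, (x j : ℚ) = n * y j) ∧
      ∀ q ∈ S, q ≠ p → ∀ i, av (some q) ((A q).mulVec (cv x) i) ≤ s q i := by
  classical
  set D : ℕ := ∏ j, (y j).den with hD
  have hDp : ¬ p ∣ D := by
    intro h
    rw [hD, Prime.dvd_finsetProd_iff (hS p hp).prime] at h
    obtain ⟨j, _, hj⟩ := h
    exact not_dvd_den (hS p hp) _ (hy j) hj
  obtain ⟨e, he⟩ := exists_pow_le (ℕ × Fin N) (S ×ˢ Finset.univ)
    (fun u => (∑ k, av (some u.1) (A u.1 u.2 k) * av (some u.1) (y k)) / s u.1 u.2) (by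
      intro u hu
      rw [Finset.mem_product] at hu
      apply div_nonneg _ (hs _ hu.1 _).le
      exact Finset.sum_nonneg fun k _ => mul_nonneg (av_nn' _ _) (av_nn' _ _))
  set n : ℤ := (D : ℤ) * ∏ q ∈ S.erase p, (q : ℤ) ^ e with hn
  have hnp : ¬ (p : ℤ) ∣ n := by
    have hpp : Prime (p : ℤ) := Nat.prime_iff_prime_int.1 (hS p hp)
    intro h
    rcases hpp.dvd_or_dvd h with h | h
    · exact hDp (by exact_mod_cast h)
    · rw [Prime.dvd_finsetProd_iff hpp] at h
      obtain ⟨q, hq, hq'⟩ := h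
      have h2 := hpp.dvd_of_dvd_pow hq'
      have h3 : p ∣ q := by exact_mod_cast h2
      rw [Finset.mem_erase] at hq
      exact hq.1 (((Nat.prime_dvd_prime_iff_eq (hS p hp) (hS q hq.2)).1 h3).symm)
  have hden : ∀ j, ∃ c : ℤ, (c : ℚ) = n * y j := by
    intro j
    have h1 : ((y j).den : ℤ) ∣ n := by
      apply Dvd.dvd.mul_right
      have : (y j).den ∣ D := Finset.dvd_prod_of_mem (fun j => (y j).den) (Finset.mem_univ j)
      exact_mod_cast this
    obtain ⟨c, hc⟩ := h1
    refine ⟨c * (y j).num, ?_⟩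
    rw [hc]
    push_cast
    have := Rat.mul_den_eq_num (y j)
    rw [← this]
    ring
  choose x hx using hden
  refine ⟨n, x, hnp, hx, ?_⟩
  intro q hq hqp i
  have hqn : (q : ℤ) ^ e ∣ n := by
    apply Dvd.dvd.mul_left
    exact Finset.dvd_prod_of_mem (fun q : ℕ => (q : ℤ) ^ e) (Finset.mem_erase.2 ⟨hqp, hq⟩)
  have h1 : (A q).mulVec (cv x) i = n * ∑ k, A q i k * y k := by
    simp only [Matrix.mulVec, dotProduct, cv]
    rw [Finset.mul_sum]
    refine Finset.sum_congr rfl fun k _ => ?_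
    rw [hx k]; ring
  have hqP := hS q hq
  have h2 : av (some q) (∑ k, A q i k * y k) ≤
      ∑ k, av (some q) (A q i k) * av (some q) (y k) := by
    have := Fact.mk hqP
    have h3 : av (some q) (∑ k, A q i k * y k) ≤ ∑ k, av (some q) (A q i k * y k) := by
      have key : ∀ T : Finset (Fin N), av (some q) (∑ k ∈ T, A q i k * y k) ≤
          ∑ k ∈ T, av (some q) (A q i k * y k) := by
        intro T
        induction T using Finset.induction_on with
        | empty => simp [av]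
        | insert a T ha ih =>
          rw [Finset.sum_insert ha, Finset.sum_insert ha]
          have h4 : av (some q) (A q i a * y a + ∑ k ∈ T, A q i k * y k) ≤
              av (some q) (A q i a * y a) + av (some q) (∑ k ∈ T, A q i k * y k) := by
            simp only [av]
            exact_mod_cast padicNorm.triangle_ineq _ _
          linarith
      exact key Finset.univ
    refine h3.trans (le_of_eq ?_)
    refine Finset.sum_congr rfl fun k _ => ?_
    exact av_mul' hqP _ _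
  have h5 := he (q, i) (Finset.mem_product.2 ⟨hq, Finset.mem_univ _⟩)
  simp only at h5
  have hsq := hs q hq i
  rw [h1, av_mul' hqP]
  calc av (some q) (n : ℚ) * av (some q) (∑ k, A q i k * y k)
      ≤ (1 / (2 : ℝ)) ^ e * ∑ k, av (some q) (A q i k) * av (some q) (y k) := by
        apply mul_le_mul (av_dvd hqP e n hqn) h2 (av_nn' _ _) (by positivity)
    _ = ((1 / (2 : ℝ)) ^ e * ((∑ k, av (some q) (A q i k) * av (some q) (y k)) / s q i)) *
        s q i := by
        field_simp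
    _ ≤ 1 * s q i := mul_le_mul_of_nonneg_right h5 hsq.le
    _ = s q i := one_mul _

end Pool.Agent.Helper15.SUB
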