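import Pool.Agent.Helper15.SUB.Base

/-!
Project SUB, row LATP: the lattice of the integral points of a `p`-adic box.
-/

set_option autoImplicit false

namespace Pool.Agent.Helper15.SUB

open Pool.Agent.Helper70.SUB Finset Matrix

theorem LATP (hAV : ST_AV) : ST_LATP := by
  classical
  intro N S A K hS hdet hK
  obtain ⟨av_nn, av_zero, hAV3⟩ := hAV
  obtain ⟨av_pos, av_mul, av_add, av_ultra, av_int, av_low, pf1, pf2, av_sum⟩ := hAV3 S hS
  have hmem : ∀ p ∈ S, some p ∈ plc S := fun p hp => by
    simp only [plc, Finset.some_mem_insertNone]; exact hp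
  -- the constant
  set R : ℕ → ℝ := fun p => 1 + ∑ i, ∑ j, av (some p) ((A (some p))⁻¹ i j) with hR
  have hR1 : ∀ p, 1 ≤ R p := by
    intro p
    have : 0 ≤ ∑ i, ∑ j, av (some p) ((A (some p))⁻¹ i j) :=
      Finset.sum_nonneg fun i _ => Finset.sum_nonneg fun j _ => av_nn _ _
    simp only [hR]; linarith
  have hRle : ∀ p i j, av (some p) ((A (some p))⁻¹ i j) ≤ R p := by
    intro p i j
    have h1 : av (some p) ((A (some p))⁻¹ i j) ≤ ∑ j, av (some p) ((A (some p))⁻¹ i j) :=
      Finset.single_le_sum (f := fun j => av (some p) ((A (some p))⁻¹ i j))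
        (fun j _ => av_nn _ _) (Finset.mem_univ j)
    have h2 : ∑ j, av (some p) ((A (some p))⁻¹ i j) ≤
        ∑ i, ∑ j, av (some p) ((A (some p))⁻¹ i j) :=
      Finset.single_le_sum (f := fun i => ∑ j, av (some p) ((A (some p))⁻¹ i j))
        (fun i _ => Finset.sum_nonneg fun j _ => av_nn _ _) (Finset.mem_univ i)
    simp only [hR]; linarith
  refine ⟨1 + ∑ p ∈ S, K * p * R p, ?_, ?_⟩
  · have : 0 ≤ ∑ p ∈ S, K * p * R p := Finset.sum_nonneg fun p _ => by
      have := hR1 p
      positivity
    linarith
  intro s hs hsK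
  have hsp : ∀ p ∈ S, ∀ i, 0 < s (some p) i := fun p hp i => hs _ (hmem p hp) i
  -- the lattice
  let L : Submodule ℤ (Fin N → ℤ) :=
    { carrier := {x | ∀ p ∈ S, ∀ i, av (some p) ((A (some p)).mulVec (cv x) i) ≤ s (some p) i}
      add_mem' := by
        intro x y hx hy p hp i
        have h1 : (A (some p)).mulVec (cv (x + y)) i =
            (A (some p)).mulVec (cv x) i + (A (some p)).mulVec (cv y) i := by
          rw [← Pi.add_apply, ← Matrix.mulVec_add]
          congr 2
          funext j; simp [cv]
        rw [h1]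
        exact (av_ultra p hp _ _).trans (max_le (hx p hp i) (hy p hp i))
      zero_mem' := by
        intro p hp i
        have h1 : (A (some p)).mulVec (cv (0 : Fin N → ℤ)) i = 0 := by
          simp [cv, Matrix.mulVec, dotProduct]
        rw [h1, av_zero]
        exact (hsp p hp i).le
      smul_mem' := by
        intro c x hx p hp i
        have h1 : (A (some p)).mulVec (cv (c • x)) i = (c : ℚ) * (A (some p)).mulVec (cv x) i := by
          simp only [cv, Matrix.mulVec, dotProduct, Finset.mul_sum]
          refine Finset.sum_congr rfl fun k _ => ?_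
          simp only [Pi.smul_apply, smul_eq_mul]
          push_cast; ring
        rw [h1, av_mul _ (hmem p hp)]
        calc av (some p) (c : ℚ) * av (some p) ((A (some p)).mulVec (cv x) i)
            ≤ 1 * s (some p) i := mul_le_mul (av_int p hp c) (hx p hp i) (av_nn _ _) zero_le_one
          _ = _ := one_mul _ }
  have hLmem : ∀ x, x ∈ L ↔ ∀ p ∈ S, ∀ i, av (some p) ((A (some p)).mulVec (cv x) i) ≤
      s (some p) i := fun x => Iff.rfl
  obtain ⟨e, he⟩ := exists_pow_le (ℕ × Fin N) (S ×ˢ Finset.univ)
    (fun u => (∑ k, av (some u.1) (A (some u.1) u.2 k)) / s (some u.1) u.2) (by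
      intro u hu
      rw [Finset.mem_product] at hu
      apply div_nonneg _ (hsp _ hu.1 _).le
      exact Finset.sum_nonneg fun k _ => av_nn _ _)
  set m : ℤ := ∏ q ∈ S, (q : ℤ) ^ e with hm
  have hm0 : m ≠ 0 := by
    rw [hm]
    apply Finset.prod_ne_zero_iff.2
    intro q hq
    apply pow_ne_zero
    exact_mod_cast (hS q hq).ne_zero
  have hmL : ∀ x : Fin N → ℤ, m • x ∈ L := by
    intro x p hp i
    have h1 : (A (some p)).mulVec (cv (m • x)) i = (m : ℚ) * ∑ k, A (some p) i k * (x k : ℚ) := by
      simp only [cv, Matrix.mulVec, dotProduct, Finset.mul_sum]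
      refine Finset.sum_congr rfl fun k _ => ?_
      simp only [Pi.smul_apply, smul_eq_mul]
      push_cast; ring
    have hdv : (p : ℤ) ^ e ∣ m := Finset.dvd_prod_of_mem (fun q : ℕ => (q : ℤ) ^ e) hp
    have h2 : av (some p) (∑ k, A (some p) i k * (x k : ℚ)) ≤
        ∑ k, av (some p) (A (some p) i k) := by
      have h3 := av_sum (some p) (hmem p hp) (Fin N) Finset.univ
        (fun k => A (some p) i k * (x k : ℚ)) (∑ k, av (some p) (A (some p) i k))
        (Finset.sum_nonneg fun k _ => av_nn _ _) (by
          intro k _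
          rw [av_mul _ (hmem p hp)]
          calc av (some p) (A (some p) i k) * av (some p) (x k : ℚ)
              ≤ av (some p) (A (some p) i k) * 1 :=
                mul_le_mul_of_nonneg_left (av_int p hp _) (av_nn _ _)
            _ = av (some p) (A (some p) i k) := mul_one _
            _ ≤ _ := Finset.single_le_sum (f := fun k => av (some p) (A (some p) i k))
                (fun k _ => av_nn _ _) (Finset.mem_univ k))
      simpa using h3
    have h5 := he (p, i) (Finset.mem_product.2 ⟨hp, Finset.mem_univ _⟩)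
    simp only at h5
    have hsq := hsp p hp i
    rw [h1, av_mul _ (hmem p hp)]
    calc av (some p) (m : ℚ) * av (some p) (∑ k, A (some p) i k * (x k : ℚ))
        ≤ (1 / (2 : ℝ)) ^ e * ∑ k, av (some p) (A (some p) i k) := by
          apply mul_le_mul (av_dvd (hS p hp) e m hdv) h2 (av_nn _ _) (by positivity)
      _ = ((1 / (2 : ℝ)) ^ e * ((∑ k, av (some p) (A (some p) i k)) / s (some p) i)) *
          s (some p) i := by
          field_simp
      _ ≤ 1 * s (some p) i := mul_le_mul_of_nonneg_right h5 hsq.le
      _ = s (some p) i := one_mul _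
  obtain ⟨B, hB0, hBm, hBL, hBx⟩ := exists_basis N L m hm0 hmL
  refine ⟨B, hB0, ?_, ?_, ?_, ?_⟩
  · intro q hq hqB
    have hqq : Prime (q : ℤ) := Nat.prime_iff_prime_int.1 hq
    have h1 : (q : ℤ) ∣ m := hqq.dvd_of_dvd_pow (hqB.trans hBm)
    rw [hm, Prime.dvd_finsetProd_iff hqq] at h1
    obtain ⟨q', hq', hd⟩ := h1
    have h2 := hqq.dvd_of_dvd_pow hd
    have h3 : q ∣ q' := by exact_mod_cast h2
    rwa [(Nat.prime_dvd_prime_iff_eq hq (hS q' hq')).1 h3]
  · intro p hp i k
    have := hBL k p hp i
    have h1 : (A (some p) * mQ B) i k = (A (some p)).mulVec (cv fun i => B i k) i := by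
      simp [Matrix.mul_apply, Matrix.mulVec, dotProduct, cv]
    rw [h1]; exact this
  · intro p hp k i
    have hpP := hS p hp
    have hdp : (A (some p)).det ≠ 0 := hdet _ (hmem p hp)
    have hp2 : (2 : ℝ) ≤ p := by exact_mod_cast hpP.two_le
    have hsi := hsp p hp i
    have hRp := hR1 p
    -- the exponent
    set t : ℝ := min (s (some p) i) (1 / R p) with ht
    have ht0 : 0 < t := lt_min hsi (by positivity)
    have ht1 : t ≤ 1 := (min_le_right _ _).trans (by
      rw [div_le_one (by linarith)]; exact hRp)
    obtain ⟨f, hf1, hf2⟩ := exists_nat_pow_near_of_lt_one ht0 ht1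
      (by positivity : (0 : ℝ) < 1 / p) (by rw [div_lt_one (by linarith)]; linarith)
    have hpf : t ≤ p * (1 / (p : ℝ)) ^ (f + 1) := by
      calc t ≤ (1 / (p : ℝ)) ^ f := hf2
        _ = p * (1 / (p : ℝ)) ^ (f + 1) := by
          rw [pow_succ]; field_simp
    set P := (A (some p))⁻¹ with hP
    obtain ⟨n, x, hn, hx, hxq⟩ := exists_vec S hS (fun q => A (some q)) (fun q => s (some q))
      (fun q hq i => hsp q hq i) p hp (fun j => (p : ℚ) ^ (f + 1) * P j i) (by
        intro j
        rw [av_mul' hpP, av_pow' hpP, av_p hpP]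
        calc (1 / (p : ℝ)) ^ (f + 1) * av (some p) (P j i) ≤ (1 / R p) * R p := by
              apply mul_le_mul (hf1.le.trans (min_le_right _ _)) (hRle p j i) (av_nn _ _)
              positivity
          _ = 1 := by field_simp)
    have hAP : (A (some p)) * P = 1 := Matrix.mul_nonsing_inv _ (isUnit_iff_ne_zero.2 hdp)
    have hxP : cv x = fun j => (n : ℚ) * ((p : ℚ) ^ (f + 1) * P j i) := by
      funext j; exact hx j
    have hxL : x ∈ L := by
      intro q hq i'
      by_cases hqp : q = p
      · subst hqp
        have h1 : (A (some q)).mulVec (cv x) i' =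
            (n : ℚ) * (q : ℚ) ^ (f + 1) * ((A (some q)) * P) i' i := by
          rw [hxP]
          simp only [Matrix.mulVec, dotProduct, Matrix.mul_apply, Finset.mul_sum]
          refine Finset.sum_congr rfl fun k _ => ?_
          ring
        rw [h1, hAP]
        by_cases hii : i' = i
        · subst hii
          rw [Matrix.one_apply_eq, mul_one, av_mul' hpP, av_pow' hpP, av_p hpP,
            av_unit hpP n hn, one_mul]
          exact hf1.le.trans (min_le_left _ _)
        · rw [Matrix.one_apply_ne hii, mul_zero, av_zero]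
          exact (hsp q hq i').le
      · exact hxq q hq hqp i'
    obtain ⟨z, hz⟩ := hBx x hxL
    have hBdet : (mQ B).det ≠ 0 := by
      have : (mQ B).det = ((B.det : ℤ) : ℚ) := by
        rw [Int.cast_det]
      rw [this]; exact_mod_cast hB0
    have hBinv : (mQ B)⁻¹ * (mQ B) = 1 := Matrix.nonsing_inv_mul _ (isUnit_iff_ne_zero.2 hBdet)
    have hcz : cv x = (mQ B).mulVec (cv z) := by
      funext j
      have := congrFun hz j
      simp only [cv, this]
      simp only [Matrix.mulVec, dotProduct, mQ, Matrix.map_apply]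
      push_cast
      rfl
    have hzk : (z k : ℚ) = (n : ℚ) * (p : ℚ) ^ (f + 1) * ((A (some p) * mQ B)⁻¹ k i) := by
      have h1 : cv z = (mQ B)⁻¹.mulVec (cv x) := by
        rw [hcz, Matrix.mulVec_mulVec, hBinv, Matrix.one_mulVec]
      have h2 := congrFun h1 k
      rw [hxP] at h2
      simp only [cv] at h2
      rw [h2, Matrix.mul_inv_rev]
      simp only [Matrix.mulVec, dotProduct, Matrix.mul_apply, Finset.mul_sum]
      refine Finset.sum_congr rfl fun k _ => ?_
      ring
    have hle : av (some p) ((z k : ℤ) : ℚ) ≤ 1 := av_int p hp (z k)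
    rw [hzk, av_mul' hpP, av_mul' hpP, av_pow' hpP, av_p hpP, av_unit hpP n hn, one_mul] at hle
    set X := av (some p) ((A (some p) * mQ B)⁻¹ k i) with hX
    have hX0 : 0 ≤ X := av_nn _ _
    -- `t X ≤ p`
    have htX : t * X ≤ p := by
      calc t * X ≤ (p * (1 / (p : ℝ)) ^ (f + 1)) * X := mul_le_mul_of_nonneg_right hpf hX0
        _ = p * ((1 / (p : ℝ)) ^ (f + 1) * X) := by ring
        _ ≤ p * 1 := mul_le_mul_of_nonneg_left hle (by positivity)
        _ = p := mul_one _
    -- `s ≤ K R t`
    have hst : s (some p) i ≤ K * R p * t := by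
      rw [ht]
      rcases le_total (s (some p) i) (1 / R p) with h | h
      · rw [min_eq_left h]
        have : 1 ≤ K * R p := by nlinarith
        nlinarith
      · rw [min_eq_right h]
        have : K * R p * (1 / R p) = K := by field_simp
        rw [this]; exact hsK p hp i
    calc X * s (some p) i ≤ X * (K * R p * t) := mul_le_mul_of_nonneg_left hst hX0
      _ = K * R p * (t * X) := by ring
      _ ≤ K * R p * p := mul_le_mul_of_nonneg_left htX (by positivity)
      _ = K * p * R p := by ring
      _ ≤ ∑ p ∈ S, K * p * R p := by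
          apply Finset.single_le_sum (f := fun p : ℕ => K * p * R p) _ hp
          intro q _
          have := hR1 q
          positivity
      _ ≤ _ := by linarith
  · intro x hx
    exact hBx x hx

end Pool.Agent.Helper15.SUB
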